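import Pool.Agent.H87.D3.Targets2

/-! Row CNS of the board d3h (MP_2697e3_an): conservation of mass and of the moments. -/

namespace Pool.Agent.H21.D3

open MeasureTheory Metric Set Filter Topology Pool.Agent.H87.SN Pool.Agent.H87.SH
  Pool.Agent.H87.AX Pool.Agent.H87.D3
open scoped ContDiff RealInnerProductSpace ENNReal

noncomputable section

namespace CNS

variable {m : ℕ}

theorem statF_two (L : V →L[ℝ] E m) (D : V →L[ℝ] V) (α β : V →L[ℝ] ℝ) (j : Fin (1 + 2))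
    (hD : ∀ v, D v = α v • bv 2 - β v • bv j) :
    statF L D = nsq L * (α (bv 2) - β (bv j)) -
      2 * (∑ i, ⟪L (bv i), L (bv 2)⟫ * α (bv i) - ∑ i, ⟪L (bv i), L (bv j)⟫ * β (bv i)) := by
  unfold statF
  have h1 : ∀ i k, (D (bv i)) k =
      (if k = 2 then α (bv i) else 0) - (if k = j then β (bv i) else 0) := by
    intro i k
    rw [hD]
    simp [bv]
  simp only [h1, mul_sub, Finset.sum_sub_distrib, mul_ite, mul_zero, Finset.sum_ite_eq',
    Finset.mem_univ, if_true]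

theorem abs_inner_le (L : V →L[ℝ] E m) (i j : Fin (1 + 2)) :
    |⟪L (bv i), L (bv j)⟫| ≤ nsq L := by
  have h0 : ∀ k : Fin (1 + 2), ‖L (bv k)‖ ^ 2 ≤ nsq L := fun k =>
    Finset.single_le_sum (f := fun k => ‖L (bv k)‖ ^ 2) (fun _ _ => sq_nonneg _)
      (Finset.mem_univ k)
  have h1 := abs_real_inner_le_norm (L (bv i)) (L (bv j))
  nlinarith [h0 i, h0 j, sq_nonneg (‖L (bv i)‖ - ‖L (bv j)‖)]

theorem nsq_nn (L : V →L[ℝ] E m) : 0 ≤ nsq L := Finset.sum_nonneg fun _ _ => sq_nonneg _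

theorem nzs_eq (L : V →L[ℝ] E m) : nzs L = ‖L (bv 2)‖ ^ 2 := by
  unfold nzs
  rw [Finset.univ_unique, Finset.sum_singleton]
  rfl

theorem tz_le (L : V →L[ℝ] E m) : |tz L| ≤ nsq L := by
  unfold tz
  rw [nzs_eq]
  have h0 : ‖L (bv 2)‖ ^ 2 ≤ nsq L :=
    Finset.single_le_sum (f := fun k => ‖L (bv k)‖ ^ 2) (fun _ _ => sq_nonneg _)
      (Finset.mem_univ (2 : Fin (1 + 2)))
  rw [abs_le]
  constructor <;> nlinarith [sq_nonneg ‖L (bv 2)‖]

theorem nsq_cont : Continuous (fun L : V →L[ℝ] E m => nsq L) := by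
  unfold nsq
  fun_prop

theorem tz_cont : Continuous (fun L : V →L[ℝ] E m => tz L) := by
  unfold tz nsq nzs
  fun_prop

theorem key (hM : T_MUF) {G : V → V →L[ℝ] E m}
    (hG : MemLp G 2 (volume.restrict (ball (0 : V) 2))) (hs : Stat1 G) {X : V → V}
    (hX : ContDiff ℝ 1 X) (hXs : ∀ x, x ∉ closedBall (0 : V) (3 / 2) → X x = 0)
    {F R : V → (V →L[ℝ] E m) → ℝ}
    (hF : Continuous (fun p : V × (V →L[ℝ] E m) => F p.1 p.2))
    (hR : Continuous (fun p : V × (V →L[ℝ] E m) => R p.1 p.2))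
    {K K' : ℝ} {A : Set V} (hA : MeasurableSet A) (hAb : A ⊆ ball 0 2) (hK' : 0 ≤ K')
    (hFb : ∀ x ∈ ball (0 : V) 2, ∀ L, |F x L| ≤ K * nsq L)
    (hRb : ∀ x ∈ A, ∀ L, |R x L| ≤ K' * nsq L) (hR0 : ∀ x, x ∉ A → ∀ L, R x L = 0)
    (he : ∀ x L, statF L (fderiv ℝ X x) = F x L + R x L) :
    |∫ x in ball (0 : V) 2, F x (G x)| ≤ K' * ∫ x in A, nsq (G x) := by
  obtain ⟨-, -, -, h4, -, -⟩ := hM m G hG
  have hn : IntegrableOn (fun x => nsq (G x)) (ball 0 2) := (h4 _ measurableSet_ball subset_rfl).1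
  have hsub : Function.support X ⊆ closedBall (0 : V) (3 / 2) := by
    intro x hx
    by_contra hc
    exact hx (hXs x hc)
  have hts : tsupport X ⊆ closedBall (0 : V) (3 / 2) := closure_minimal hsub isClosed_closedBall
  have hts2 : tsupport X ⊆ ball (0 : V) 2 := hts.trans (closedBall_subset_ball (by norm_num))
  have h0 := hs X hX (HasCompactSupport.intro (isCompact_closedBall (0 : V) (3 / 2)) hXs) hts2
  have h1 : ∫ x in ball (0 : V) 2, statF (G x) (fderiv ℝ X x) = 0 := by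
    rw [setIntegral_eq_integral_of_forall_compl_eq_zero, h0]
    intro x hx
    have : fderiv ℝ X x = 0 := fderiv_of_notMem_tsupport ℝ (fun h => hx (hts2 h))
    rw [this]
    simp [statF]
  have hmeas : AEStronglyMeasurable (fun x => (x, G x)) (volume.restrict (ball (0 : V) 2)) :=
    aestronglyMeasurable_id.prodMk hG.1
  have hFi : IntegrableOn (fun x => F x (G x)) (ball 0 2) := by
    refine Integrable.mono' (hn.const_mul K) (hF.comp_aestronglyMeasurable hmeas) ?_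
    filter_upwards [ae_restrict_mem measurableSet_ball] with x hx
    rw [Real.norm_eq_abs]
    exact hFb x hx _
  have hRB : ∀ x L, |R x L| ≤ K' * nsq L := by
    intro x L
    by_cases hx : x ∈ A
    · exact hRb x hx L
    · rw [hR0 x hx, abs_zero]; exact mul_nonneg hK' (nsq_nn L)
  have hRi : IntegrableOn (fun x => R x (G x)) (ball 0 2) := by
    refine Integrable.mono' (hn.const_mul K') (hR.comp_aestronglyMeasurable hmeas) ?_
    filter_upwards with x
    rw [Real.norm_eq_abs]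
    exact hRB x _
  simp only [he] at h1
  rw [integral_add hFi hRi] at h1
  have h2 : ∫ x in ball (0 : V) 2, F x (G x) = - ∫ x in ball (0 : V) 2, R x (G x) := by linarith
  rw [h2, abs_neg]
  have h3 : ∫ x in ball (0 : V) 2, R x (G x) = ∫ x in A, R x (G x) := by
    rw [← integral_indicator measurableSet_ball, ← integral_indicator hA]
    congr 1
    ext x
    by_cases hx : x ∈ A
    · rw [indicator_of_mem hx, indicator_of_mem (hAb hx)]
    · rw [indicator_of_notMem hx]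
      by_cases hb : x ∈ ball (0 : V) 2
      · rw [indicator_of_mem hb, hR0 x hx]
      · rw [indicator_of_notMem hb]
  rw [h3, ← integral_const_mul, ← Real.norm_eq_abs]
  refine norm_integral_le_of_norm_le ((hn.mono_set hAb).const_mul K') ?_
  filter_upwards with x
  rw [Real.norm_eq_abs]
  exact hRB x _


theorem hfd {φ : ℝ → ℝ} (x : V) {c : ℝ} (h : HasDerivAt φ c (x 2)) :
    HasFDerivAt (fun y : V => φ (y 2)) (c • (EuclideanSpace.proj 2 : V →L[ℝ] ℝ)) x := by
  have h1 : HasFDerivAt (fun y : V => y 2) (EuclideanSpace.proj 2 : V →L[ℝ] ℝ) x :=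
    (EuclideanSpace.proj (2 : Fin (1 + 2)) : V →L[ℝ] ℝ).hasFDerivAt
  exact h.comp_hasFDerivAt x h1

theorem fd1 {φ : ℝ → ℝ} {g : V → ℝ} (hφ : Differentiable ℝ φ) (hg : Differentiable ℝ g)
    (x v : V) : fderiv ℝ (fun y : V => φ (y 2) * g y) x v =
      deriv φ (x 2) * v 2 * g x + φ (x 2) * fderiv ℝ g x v := by
  have h1 := hfd x (hφ (x 2)).hasDerivAt
  have h2 := (h1.mul (hg x).hasFDerivAt).fderiv
  have h3 : fderiv ℝ (fun y : V => φ (y 2) * g y) x =
    φ (x 2) • fderiv ℝ g x + g x • (deriv φ (x 2) • (EuclideanSpace.proj 2 : V →L[ℝ] ℝ)) := h2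
  rw [h3]
  simp
  ring

theorem fd2 {φ : ℝ → ℝ} {g : V → ℝ} (hφ : Differentiable ℝ φ) (hg : Differentiable ℝ g)
    (j : Fin (1 + 2)) (x v : V) : fderiv ℝ (fun y : V => φ (y 2) * g y * y j) x v =
      (deriv φ (x 2) * v 2 * g x + φ (x 2) * fderiv ℝ g x v) * x j + φ (x 2) * g x * v j := by
  have hd : Differentiable ℝ (fun y : V => φ (y 2) * g y) := by
    intro y
    exact ((hfd y (hφ (y 2)).hasDerivAt).mul (hg y).hasFDerivAt).differentiableAt
  have h1 : HasFDerivAt (fun y : V => y j) (EuclideanSpace.proj j : V →L[ℝ] ℝ) x :=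
    (EuclideanSpace.proj j : V →L[ℝ] ℝ).hasFDerivAt
  have h2 := ((hd x).hasFDerivAt.mul h1).fderiv
  have h3 : fderiv ℝ (fun y : V => φ (y 2) * g y * y j) x =
    (φ (x 2) * g x) • (EuclideanSpace.proj j : V →L[ℝ] ℝ) +
      x j • fderiv ℝ (fun y : V => φ (y 2) * g y) x := h2
  rw [h3]
  have h4 := fd1 hφ hg x v
  simp only [add_apply, smul_apply, smul_eq_mul] at *
  rw [h4]
  simp
  ring

theorem rho_cont : Continuous (fun x : V => rho x) := by
  unfold rho
  fun_prop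

theorem norm_sq_eq (x : V) : ‖x‖ ^ 2 = rho x ^ 2 + x 2 ^ 2 := by
  have h1 : rho x ^ 2 = x 0 ^ 2 + x 1 ^ 2 := by
    unfold rho
    rw [Real.sq_sqrt (by positivity)]
  rw [h1, EuclideanSpace.norm_sq_eq, Fin.sum_univ_three]
  simp [Real.norm_eq_abs, sq_abs]

theorem rho_nn (x : V) : 0 ≤ rho x := Real.sqrt_nonneg _

theorem coord_le {j : Fin (1 + 2)} (hj : j ≠ 2) (x : V) : |x j| ≤ rho x := by
  unfold rho
  apply Real.abs_le_sqrt
  have : j = 0 ∨ j = 1 := by
    fin_cases j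
    · left; rfl
    · right; rfl
    · exact absurd rfl hj
  rcases this with rfl | rfl
  · nlinarith [sq_nonneg (x 1)]
  · nlinarith [sq_nonneg (x 0)]

theorem deriv_zero {φ : ℝ → ℝ} {Z : ℝ} (hφ : Differentiable ℝ φ) (hZ : 0 < Z)
    (h0 : ∀ z, Z ≤ |z| → φ z = 0) (z : ℝ) (hz : Z ≤ |z|) : deriv φ z = 0 := by
  rcases le_or_gt 0 z with h | h
  · rw [abs_of_nonneg h] at hz
    rw [← (hφ z).derivWithin (uniqueDiffOn_Ici z z self_mem_Ici)]
    rw [derivWithin_congr (f := fun _ => (0 : ℝ)) (s := Ici z)]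
    · simp
    · intro y hy
      exact h0 y (by rw [abs_of_nonneg (h.trans hy)]; exact hz.trans hy)
    · exact h0 z (by rw [abs_of_nonneg h]; exact hz)
  · rw [abs_of_neg h] at hz
    rw [← (hφ z).derivWithin (uniqueDiffOn_Iic z z self_mem_Iic)]
    rw [derivWithin_congr (f := fun _ => (0 : ℝ)) (s := Iic z)]
    · simp
    · intro y hy
      have hy' : y ≤ z := hy
      exact h0 y (by rw [abs_of_neg (by linarith)]; linarith)
    · exact h0 z (by rw [abs_of_neg h]; linarith)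

/-- The set of the annulus. -/
def An (h Z : ℝ) : Set V := {x : V | h < rho x ∧ rho x < 2 * h ∧ |x 2| < Z}

theorem An_meas (h Z : ℝ) : MeasurableSet (An h Z) := by
  have h1 : Continuous (fun x : V => |x 2|) := by fun_prop
  exact ((isOpen_lt continuous_const rho_cont).inter
    ((isOpen_lt rho_cont continuous_const).inter (isOpen_lt h1 continuous_const))).measurableSet

theorem An_sub {h Z : ℝ} (hh : h ≤ 1 / 8) (hZ : Z ≤ 1) : An h Z ⊆ ball (0 : V) 2 := by
  rintro x ⟨-, h2, h3⟩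
  rw [mem_ball_zero_iff]
  have h4 := norm_sq_eq x
  have h5 := rho_nn x
  have h6 : x 2 ^ 2 ≤ 1 := by
    rw [← sq_abs]
    nlinarith [abs_nonneg (x 2)]
  nlinarith [norm_nonneg x]

theorem out_cb {h Z : ℝ} (hh : h ≤ 1 / 8) (hZ : Z ≤ 1) {x : V}
    (hx : x ∉ closedBall (0 : V) (3 / 2)) : 2 * h ≤ rho x ∨ Z ≤ |x 2| := by
  by_contra hc
  push Not at hc
  obtain ⟨h2, h3⟩ := hc
  apply hx
  rw [mem_closedBall_zero_iff]
  have h4 := norm_sq_eq x
  have h5 := rho_nn x
  have h6 : x 2 ^ 2 ≤ 1 := by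
    rw [← sq_abs]
    nlinarith [abs_nonneg (x 2)]
  nlinarith [norm_nonneg x]

theorem chh_fd {h : ℝ} (hb : ∀ x, 0 ≤ chh h x ∧ chh h x ≤ 1)
    (h1 : ∀ x, rho x ≤ h → chh h x = 1) (h2 : ∀ x, 2 * h ≤ rho x → chh h x = 0) (x : V)
    (hx : ¬ (h < rho x ∧ rho x < 2 * h)) : fderiv ℝ (chh h) x = 0 := by
  by_cases hc : h < rho x
  · have hc2 : 2 * h ≤ rho x := by
      by_contra hh
      exact hx ⟨hc, not_le.mp hh⟩
    apply IsLocalMin.fderiv_eq_zero
    filter_upwards with y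
    rw [h2 x hc2]
    exact (hb y).1
  · apply IsLocalMax.fderiv_eq_zero
    filter_upwards with y
    rw [h1 x (not_lt.mp hc)]
    exact (hb y).2

/-- The error term. -/
def Sk (h : ℝ) (x : V) (L : V →L[ℝ] E m) (k : Fin (1 + 2)) : ℝ :=
  ∑ i, ⟪L (bv i), L (bv k)⟫ * fderiv ℝ (chh h) x (bv i)

theorem Sk_le {h c : ℝ} (hc : ∀ x v, |fderiv ℝ (chh h) x v| ≤ c * ‖v‖) (x : V)
    (L : V →L[ℝ] E m) (k : Fin (1 + 2)) : |Sk h x L k| ≤ 3 * c * nsq L := by
  unfold Sk
  have h1 : ∀ i : Fin (1 + 2), |fderiv ℝ (chh h) x (bv i)| ≤ c := by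
    intro i
    have := hc x (bv i)
    rwa [show ‖(bv i : V)‖ = 1 by simp [bv], mul_one] at this
  refine (Finset.abs_sum_le_sum_abs _ _).trans ?_
  have h2 : ∀ i ∈ (Finset.univ : Finset (Fin (1 + 2))),
      |⟪L (bv i), L (bv k)⟫ * fderiv ℝ (chh h) x (bv i)| ≤ c * nsq L := by
    intro i _
    rw [abs_mul, mul_comm]
    exact mul_le_mul (h1 i) (abs_inner_le L i k) (abs_nonneg _) ((abs_nonneg _).trans (h1 i))
  refine (Finset.sum_le_sum h2).trans ?_
  rw [Finset.sum_const, Finset.card_univ, Fintype.card_fin, nsmul_eq_mul]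
  norm_num
  linarith

theorem Sk_cont {h : ℝ} (hC : ContDiff ℝ ∞ (chh h)) (k : Fin (1 + 2)) :
    Continuous (fun p : V × (V →L[ℝ] E m) => Sk h p.1 p.2 k) := by
  unfold Sk
  have h1 : Continuous (fderiv ℝ (chh h)) := hC.continuous_fderiv (by simp)
  refine continuous_finsetSum _ fun i _ => ?_
  refine Continuous.mul ?_ ?_
  · exact Continuous.inner (by fun_prop) (by fun_prop)
  · exact (h1.comp continuous_fst).clm_apply continuous_const


theorem X_C1 {h : ℝ} (hC : ContDiff ℝ ∞ (chh h)) {φ : ℝ → ℝ} (hφ : ContDiff ℝ 1 φ) :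
    ContDiff ℝ 1 (fun x : V => φ (x 2) * chh h x) := by
  have h1 : ContDiff ℝ 1 (chh h) := hC.of_le (by exact_mod_cast le_top)
  exact (hφ.comp ((EuclideanSpace.proj (2 : Fin (1 + 2)) : V →L[ℝ] ℝ).contDiff)).mul h1

theorem fderiv_two {a b : V → ℝ} (ha : Differentiable ℝ a) (hb : Differentiable ℝ b)
    (j : Fin (1 + 2)) (x v : V) :
    fderiv ℝ (fun y : V => a y • (bv 2 : V) - b y • (bv j : V)) x v =
      fderiv ℝ a x v • bv 2 - fderiv ℝ b x v • bv j := by
  have h1 := ((ha x).hasFDerivAt.smul_const (bv 2 : V)).sub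
    ((hb x).hasFDerivAt.smul_const (bv j : V))
  have h2 : fderiv ℝ (fun y : V => a y • (bv 2 : V) - b y • (bv j : V)) x = _ := h1.fderiv
  rw [h2]
  simp

theorem part1 (hM : T_MUF) {c h Z : ℝ} (hh : 0 < h) (hh8 : h ≤ 1 / 8) (hZ : 0 < Z) (hZ1 : Z ≤ 1)
    (hc0 : 0 ≤ c) (hC : ContDiff ℝ ∞ (chh h)) (hb : ∀ x, 0 ≤ chh h x ∧ chh h x ≤ 1)
    (h1 : ∀ x, rho x ≤ h → chh h x = 1) (h2 : ∀ x, 2 * h ≤ rho x → chh h x = 0)
    (h3 : ∀ x v, |fderiv ℝ (chh h) x v| ≤ c * ‖v‖) (h4 : ∀ x, fderiv ℝ (chh h) x (bv 2) = 0)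
    {G : V → V →L[ℝ] E m} (hG : MemLp G 2 (volume.restrict (ball (0 : V) 2))) (hs : Stat1 G)
    {φ : ℝ → ℝ} {B : ℝ} (hφ : ContDiff ℝ 1 φ) (hφ0 : ∀ z, Z ≤ |z| → φ z = 0)
    (hB : ∀ z, |φ z| ≤ B) :
    |∫ x in ball (0 : V) 2, chh h x * deriv φ (x 2) * tz (G x)| ≤ 13 * (c * B) * In G h Z := by
  have hB0 : 0 ≤ B := (abs_nonneg _).trans (hB 0)
  have hcd : Differentiable ℝ (chh h) := hC.differentiable (by simp)
  have hφd : Differentiable ℝ φ := hφ.differentiable (by simp)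
  have hφ' : Continuous (deriv φ) := hφ.continuous_deriv (by simp)
  have hcc : Continuous (chh h) := hcd.continuous
  have hFc : Continuous (fun x : V => chh h x * deriv φ (x 2)) := by fun_prop
  obtain ⟨K, hK⟩ := (isCompact_closedBall (0 : V) 2).exists_bound_of_continuousOn hFc.continuousOn
  set a : V → ℝ := fun x : V => φ (x 2) * chh h x with ha
  have haC : ContDiff ℝ 1 a := X_C1 hC hφ
  have had : Differentiable ℝ a := haC.differentiable (by simp)
  refine key (m := m) hM hG hs (X := fun x => a x • (bv 2 : V) - (fun _ : V => (0 : ℝ)) x • (bv 0 : V))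
    (F := fun x L => chh h x * deriv φ (x 2) * tz L)
    (R := fun x L => - (2 * φ (x 2) * Sk h x L 2)) (K := K)
    ((haC.smul contDiff_const).sub (ContDiff.smul (f := fun _ : V => (0 : ℝ))
      (g := fun _ : V => (bv 0 : V)) contDiff_const contDiff_const)) ?_ ?_ ?_
    (An_meas h Z) (An_sub hh8 hZ1) (by positivity) ?_ ?_ ?_ ?_
  · intro x hx
    have : a x = 0 := by
      rcases out_cb hh8 hZ1 hx with h5 | h5
      · simp [ha, h2 x h5]
      · simp [ha, hφ0 _ h5]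
    simp [this]
  · have h5 : Continuous (fun p : V × (V →L[ℝ] E m) => tz p.2) := tz_cont.comp continuous_snd
    fun_prop
  · have h5 := Sk_cont (m := m) hC 2
    have h6 : Continuous φ := hφ.continuous
    fun_prop
  · intro x hx L
    have h5 := hK x (ball_subset_closedBall hx)
    rw [Real.norm_eq_abs] at h5
    rw [abs_mul]
    exact mul_le_mul h5 (tz_le L) (abs_nonneg _) ((abs_nonneg _).trans h5)
  · intro x _ L
    have h5 := Sk_le h3 x L 2
    rw [abs_neg, abs_mul, abs_mul, abs_two]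
    have h6 := mul_le_mul (hB (x 2)) h5 (abs_nonneg _) hB0
    have h7 := nsq_nn L
    have h8 : 0 ≤ B * c * nsq L := by positivity
    nlinarith
  · intro x hx L
    by_cases h5 : Z ≤ |x 2|
    · simp [hφ0 _ h5]
    · have h6 : fderiv ℝ (chh h) x = 0 := chh_fd hb h1 h2 x (fun h7 => hx ⟨h7.1, h7.2, not_le.mp h5⟩)
      simp [Sk, h6]
  · intro x L
    rw [statF_two L _ (fderiv ℝ a x) (fderiv ℝ (fun _ : V => (0 : ℝ)) x) 0
      (fun v => fderiv_two had (by fun_prop) 0 x v)]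
    have h5 : ∀ v, fderiv ℝ a x v = deriv φ (x 2) * v 2 * chh h x +
      φ (x 2) * fderiv ℝ (chh h) x v := fun v => fd1 hφd hcd x v
    have h6 : ∑ i, ⟪L (bv i), L (bv 2)⟫ * fderiv ℝ a x (bv i) =
        deriv φ (x 2) * chh h x * ‖L (bv 2)‖ ^ 2 + φ (x 2) * Sk h x L 2 := by
      unfold Sk
      have h7 : ∀ i : Fin (1 + 2), ⟪L (bv i), L (bv 2)⟫ * fderiv ℝ a x (bv i) =
          (if 2 = i then deriv φ (x 2) * chh h x * ⟪L (bv i), L (bv 2)⟫ else 0) +
          φ (x 2) * (⟪L (bv i), L (bv 2)⟫ * fderiv ℝ (chh h) x (bv i)) := by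
        intro i
        rw [h5]
        have h8 : (bv i : V) 2 = if 2 = i then 1 else 0 := by simp [bv]
        rw [h8]
        split_ifs <;> ring
      simp only [h7, Finset.sum_add_distrib, Finset.sum_ite_eq, Finset.mem_univ, if_true,
        ← Finset.mul_sum]
      rw [real_inner_self_eq_norm_sq]
    rw [h6, h5, h4]
    have h9 : (bv 2 : V) 2 = 1 := by simp [bv]
    rw [h9]
    simp
    unfold tz
    rw [nzs_eq]
    ring

theorem part2 (hM : T_MUF) {c h Z : ℝ} (hh : 0 < h) (hh8 : h ≤ 1 / 8) (hZ : 0 < Z) (hZ1 : Z ≤ 1)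
    (hc0 : 0 ≤ c) (hC : ContDiff ℝ ∞ (chh h)) (hb : ∀ x, 0 ≤ chh h x ∧ chh h x ≤ 1)
    (h1 : ∀ x, rho x ≤ h → chh h x = 1) (h2 : ∀ x, 2 * h ≤ rho x → chh h x = 0)
    (h3 : ∀ x v, |fderiv ℝ (chh h) x v| ≤ c * ‖v‖) (h4 : ∀ x, fderiv ℝ (chh h) x (bv 2) = 0)
    {G : V → V →L[ℝ] E m} (hG : MemLp G 2 (volume.restrict (ball (0 : V) 2))) (hs : Stat1 G)
    {φ : ℝ → ℝ} {B : ℝ} {j : Fin (1 + 2)} (hj : j ≠ 2) (hφ : ContDiff ℝ 2 φ)
    (hφ0 : ∀ z, Z ≤ |z| → φ z = 0) (hB : ∀ z, |φ z| ≤ B) (hB' : ∀ z, |deriv φ z| ≤ B) :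
    |∫ x in ball (0 : V) 2, chh h x * deriv (deriv φ) (x 2) * x j * tz (G x)| ≤
      13 * (c * B) * In G h Z := by
  have hB0 : 0 ≤ B := (abs_nonneg _).trans (hB 0)
  have hcd : Differentiable ℝ (chh h) := hC.differentiable (by simp)
  have hφd : Differentiable ℝ φ := hφ.differentiable (by simp)
  have hφ'1 : ContDiff ℝ 1 (deriv φ) := by
    have : ContDiff ℝ (1 + 1) φ := by
      convert hφ using 1
      norm_num
    exact (contDiff_succ_iff_deriv.mp this).2.2
  have hφ1 : ContDiff ℝ 1 φ := hφ.of_le (by norm_num)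
  have hφ'd : Differentiable ℝ (deriv φ) := hφ'1.differentiable (by simp)
  have hφ' : Continuous (deriv φ) := hφ'1.continuous
  have hφ'' : Continuous (deriv (deriv φ)) := hφ'1.continuous_deriv (by simp)
  have hφ'0 : ∀ z, Z ≤ |z| → deriv φ z = 0 := deriv_zero hφd hZ hφ0
  have hcc : Continuous (chh h) := hcd.continuous
  have hFc : Continuous (fun x : V => chh h x * deriv (deriv φ) (x 2) * x j) := by fun_prop
  obtain ⟨K, hK⟩ := (isCompact_closedBall (0 : V) 2).exists_bound_of_continuousOn hFc.continuousOn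
  set a : V → ℝ := fun x : V => deriv φ (x 2) * chh h x * x j with ha
  set b : V → ℝ := fun x : V => φ (x 2) * chh h x with hbd
  have haC : ContDiff ℝ 1 a := (X_C1 hC hφ'1).mul (EuclideanSpace.proj j : V →L[ℝ] ℝ).contDiff
  have had : Differentiable ℝ a := haC.differentiable (by simp)
  have hbC : ContDiff ℝ 1 b := X_C1 hC hφ1
  have hbd' : Differentiable ℝ b := hbC.differentiable (by simp)
  refine key (m := m) hM hG hs (X := fun x => a x • (bv 2 : V) - b x • (bv j : V))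
    (F := fun x L => chh h x * deriv (deriv φ) (x 2) * x j * tz L)
    (R := fun x L => - (φ (x 2) * fderiv ℝ (chh h) x (bv j) * nsq L) -
      2 * deriv φ (x 2) * x j * Sk h x L 2 + 2 * φ (x 2) * Sk h x L j) (K := K)
    ((haC.smul contDiff_const).sub (hbC.smul contDiff_const)) ?_ ?_ ?_
    (An_meas h Z) (An_sub hh8 hZ1) (by positivity) ?_ ?_ ?_ ?_
  · intro x hx
    have h7 : a x = 0 ∧ b x = 0 := by
      rcases out_cb hh8 hZ1 hx with h5 | h5
      · simp [ha, hbd, h2 x h5]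
      · simp [ha, hbd, hφ0 _ h5, hφ'0 _ h5]
    simp [h7.1, h7.2]
  · have h5 : Continuous (fun p : V × (V →L[ℝ] E m) => tz p.2) := tz_cont.comp continuous_snd
    fun_prop
  · have h5 := Sk_cont (m := m) hC 2
    have h5' := Sk_cont (m := m) hC j
    have h6 : Continuous φ := hφ.continuous
    have h7 : Continuous (fun p : V × (V →L[ℝ] E m) => nsq p.2) := nsq_cont.comp continuous_snd
    have h8 : Continuous (fun p : V × (V →L[ℝ] E m) => fderiv ℝ (chh h) p.1 (bv j)) :=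
      ((hC.continuous_fderiv (by simp)).comp continuous_fst).clm_apply continuous_const
    fun_prop
  · intro x hx L
    have h5 := hK x (ball_subset_closedBall hx)
    rw [Real.norm_eq_abs] at h5
    rw [abs_mul]
    exact mul_le_mul h5 (tz_le L) (abs_nonneg _) ((abs_nonneg _).trans h5)
  · rintro x ⟨-, hx2, -⟩ L
    have h5 := Sk_le h3 x L 2
    have h5' := Sk_le h3 x L j
    have h7 := nsq_nn L
    have h8 : 0 ≤ B * c * nsq L := by positivity
    have h9 : |φ (x 2) * fderiv ℝ (chh h) x (bv j) * nsq L| ≤ B * c * nsq L := by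
      rw [abs_mul, abs_mul, abs_of_nonneg h7]
      have h10 := h3 x (bv j)
      rw [show ‖(bv j : V)‖ = 1 by simp [bv], mul_one] at h10
      exact mul_le_mul_of_nonneg_right (mul_le_mul (hB _) h10 (abs_nonneg _) hB0) h7
    have h11 : |2 * deriv φ (x 2) * x j * Sk h x L 2| ≤ 6 * (B * c * nsq L) := by
      rw [abs_mul, abs_mul, abs_mul, abs_two]
      have h12 : |x j| ≤ 1 := (coord_le hj x).trans (by linarith)
      have h13 := mul_le_mul (hB' (x 2)) h12 (abs_nonneg _) hB0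
      have h14 := mul_le_mul h13 h5 (abs_nonneg _) (by linarith)
      nlinarith
    have h15 : |2 * φ (x 2) * Sk h x L j| ≤ 6 * (B * c * nsq L) := by
      rw [abs_mul, abs_mul, abs_two]
      have h14 := mul_le_mul (hB (x 2)) h5' (abs_nonneg _) hB0
      nlinarith
    have h16 := abs_le.mp h9
    have h17 := abs_le.mp h11
    have h18 := abs_le.mp h15
    rw [abs_le]
    constructor <;> linarith [h16.1, h16.2, h17.1, h17.2, h18.1, h18.2]
  · intro x hx L
    by_cases h5 : Z ≤ |x 2|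
    · simp [hφ0 _ h5, hφ'0 _ h5]
    · have h6 : fderiv ℝ (chh h) x = 0 := chh_fd hb h1 h2 x (fun h7 => hx ⟨h7.1, h7.2, not_le.mp h5⟩)
      simp [Sk, h6]
  · intro x L
    rw [statF_two L _ (fderiv ℝ a x) (fderiv ℝ b x) j (fun v => fderiv_two had hbd' j x v)]
    have h5 : ∀ v, fderiv ℝ a x v = (deriv (deriv φ) (x 2) * v 2 * chh h x +
      deriv φ (x 2) * fderiv ℝ (chh h) x v) * x j + deriv φ (x 2) * chh h x * v j :=
      fun v => fd2 hφ'd hcd j x v
    have h5' : ∀ v, fderiv ℝ b x v = deriv φ (x 2) * v 2 * chh h x +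
      φ (x 2) * fderiv ℝ (chh h) x v := fun v => fd1 hφd hcd x v
    have hi2 : ∀ i : Fin (1 + 2), (bv i : V) 2 = if 2 = i then 1 else 0 := by
      intro i; simp [bv]
    have hij : ∀ i : Fin (1 + 2), (bv i : V) j = if j = i then 1 else 0 := by
      intro i; simp [bv]
    have h6 : ∑ i, ⟪L (bv i), L (bv 2)⟫ * fderiv ℝ a x (bv i) =
        deriv (deriv φ) (x 2) * chh h x * x j * ‖L (bv 2)‖ ^ 2 +
          deriv φ (x 2) * x j * Sk h x L 2 + deriv φ (x 2) * chh h x * ⟪L (bv j), L (bv 2)⟫ := by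
      unfold Sk
      have h7 : ∀ i : Fin (1 + 2), ⟪L (bv i), L (bv 2)⟫ * fderiv ℝ a x (bv i) =
          (if 2 = i then deriv (deriv φ) (x 2) * chh h x * x j * ⟪L (bv i), L (bv 2)⟫ else 0) +
          deriv φ (x 2) * x j * (⟪L (bv i), L (bv 2)⟫ * fderiv ℝ (chh h) x (bv i)) +
          (if j = i then deriv φ (x 2) * chh h x * ⟪L (bv i), L (bv 2)⟫ else 0) := by
        intro i
        rw [h5, hi2, hij]
        split_ifs <;> ring
      simp only [h7, Finset.sum_add_distrib, Finset.sum_ite_eq, Finset.mem_univ, if_true,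
        ← Finset.mul_sum]
      rw [real_inner_self_eq_norm_sq]
    have h6' : ∑ i, ⟪L (bv i), L (bv j)⟫ * fderiv ℝ b x (bv i) =
        deriv φ (x 2) * chh h x * ⟪L (bv 2), L (bv j)⟫ + φ (x 2) * Sk h x L j := by
      unfold Sk
      have h7 : ∀ i : Fin (1 + 2), ⟪L (bv i), L (bv j)⟫ * fderiv ℝ b x (bv i) =
          (if 2 = i then deriv φ (x 2) * chh h x * ⟪L (bv i), L (bv j)⟫ else 0) +
          φ (x 2) * (⟪L (bv i), L (bv j)⟫ * fderiv ℝ (chh h) x (bv i)) := by
        intro i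
        rw [h5', hi2]
        split_ifs <;> ring
      simp only [h7, Finset.sum_add_distrib, Finset.sum_ite_eq, Finset.mem_univ, if_true,
        ← Finset.mul_sum]
    rw [h6, h6', h5, h5', h4, hi2, hi2, hij, if_pos rfl, if_neg (Ne.symm hj), if_neg hj,
      real_inner_comm (L (bv j)) (L (bv 2))]
    unfold tz
    rw [nzs_eq]
    ring

end CNS

theorem pf_CNS (hM : T_MUF) (hF : T_CHF) : T_CNS := by
  obtain ⟨C, hC0, hC⟩ := hF
  refine ⟨13 * C, by positivity, ?_⟩
  intro m G hG hs h Z hh hh8 hZ hZ1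
  obtain ⟨h1, h2, h3, h4, h5, h6, -, -⟩ := hC h hh
  refine ⟨?_, ?_⟩
  · intro φ B hφ hφ0 hB
    have := CNS.part1 hM hh hh8 hZ hZ1 (by positivity : 0 ≤ C / h) h1 h2 h3 h4 h5 h6 hG hs hφ hφ0 hB
    refine this.trans (le_of_eq ?_)
    ring
  · intro φ B j hφ hφ0 hB hB' hj
    have := CNS.part2 hM hh hh8 hZ hZ1 (by positivity : 0 ≤ C / h) h1 h2 h3 h4 h5 h6 hG hs hj hφ
      hφ0 hB hB'
    refine this.trans (le_of_eq ?_)
    ring

end

end Pool.Agent.H21.D3
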