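import Pool.Agent.H87.D3.Targets2

/-! Row QNT of the board d3h (MP_2697e3_an): quantisation of the density near the axis. -/

namespace Pool.Agent.H21.D3

open MeasureTheory Metric Set Filter Topology Pool.Agent.H87.SN Pool.Agent.H87.SH
  Pool.Agent.H87.AX Pool.Agent.H87.D3
open scoped ContDiff RealInnerProductSpace ENNReal

noncomputable section

namespace QNT

theorem rho_nn (x : V) : 0 ≤ rho x := Real.sqrt_nonneg _

theorem rho_sq (x : V) : rho x ^ 2 = x 0 ^ 2 + x 1 ^ 2 := by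
  unfold rho
  rw [Real.sq_sqrt (by positivity)]

theorem norm_sq_eq (x : V) : ‖x‖ ^ 2 = rho x ^ 2 + x 2 ^ 2 := by
  rw [rho_sq, EuclideanSpace.norm_sq_eq, Fin.sum_univ_three]
  simp [Real.norm_eq_abs, sq_abs]

theorem rho_sub (x y : V) : rho (y - x) ≤ rho y + rho x := by
  have h1 := rho_nn x
  have h2 := rho_nn y
  have h3 := rho_sq x
  have h4 := rho_sq y
  have h5 := rho_sq (y - x)
  have h6 : (y - x) 0 = y 0 - x 0 := rfl
  have h7 : (y - x) 1 = y 1 - x 1 := rfl
  rw [h6, h7] at h5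
  apply le_of_sq_le_sq _ (by positivity)
  have h8 : -(x 0 * y 0 + x 1 * y 1) ≤ rho x * rho y := by
    apply (neg_le_abs _).trans
    apply abs_le_of_sq_le_sq _ (by positivity)
    rw [mul_pow, h3, h4]
    nlinarith [sq_nonneg (x 0 * y 1 - x 1 * y 0)]
  nlinarith

/-- The thin set. -/
def S (rc z w : ℝ) : Set V := {y : V | rho y < rc ∧ |y 2 - z| < w}

theorem S_meas (rc z w : ℝ) : MeasurableSet (S rc z w) := by
  have h1 : Continuous (fun x : V => rho x) := by
    unfold rho
    fun_prop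
  have h2 : Continuous (fun x : V => |x 2 - z|) := by fun_prop
  exact ((isOpen_lt h1 continuous_const).inter (isOpen_lt h2 continuous_const)).measurableSet

theorem S_vol {rc z w : ℝ} (hrc : 0 < rc) :
    volume (S rc z w) ≤ ENNReal.ofReal (8 * rc ^ 2 * w) := by
  set a : Fin (1 + 2) → ℝ := ![-rc, -rc, z - w] with ha
  set b : Fin (1 + 2) → ℝ := ![rc, rc, z + w] with hb
  have h1 : S rc z w ⊆ (fun x : V => (x : Fin (1 + 2) → ℝ)) ⁻¹' (Icc a b) := by
    rintro x ⟨hx1, hx2⟩
    have h3 := rho_sq x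
    have h4 := rho_nn x
    have h5 : |x 0| ≤ rc := by
      apply abs_le_of_sq_le_sq _ hrc.le
      nlinarith [sq_nonneg (x 1)]
    have h6 : |x 1| ≤ rc := by
      apply abs_le_of_sq_le_sq _ hrc.le
      nlinarith [sq_nonneg (x 0)]
    rw [abs_le] at h5 h6
    rw [abs_lt] at hx2
    rw [mem_preimage, mem_Icc, Pi.le_def, Pi.le_def]
    constructor
    · intro i
      fin_cases i
      · exact h5.1
      · exact h6.1
      · show z - w ≤ x 2
        linarith
    · intro i
      fin_cases i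
      · exact h5.2
      · exact h6.2
      · show x 2 ≤ z + w
        linarith
  refine (measure_mono h1).trans ?_
  rw [(PiLp.volume_preserving_ofLp (Fin (1 + 2))).measure_preimage
    measurableSet_Icc.nullMeasurableSet, Real.volume_Icc_pi]
  rw [Fin.prod_univ_three]
  rw [show b 0 - a 0 = 2 * rc by simp [ha, hb]; ring, show b 1 - a 1 = 2 * rc by simp [ha, hb]; ring,
    show b 2 - a 2 = 2 * w by simp [ha, hb]; ring]
  rw [← ENNReal.ofReal_mul (by positivity), ← ENNReal.ofReal_mul (by positivity)]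
  apply le_of_eq
  congr 1
  ring

theorem core (hM : T_MUF) {m : ℕ} {L Λ ε e : ℝ} (hE : EP m L Λ ε e) {U : Set V} {u : V → E m}
    {G : V → V →L[ℝ] E m} (hS : SM m L Λ ε U u G) {rc c w T : ℝ} {x : V} (hrc : 0 < rc)
    (hw : 0 < w) (hT : 0 < T) (hb : ball x T ⊆ ball 0 2) (hth : th G x T < 2 * e)
    (hr : (rc + rho x) ^ 2 + w ^ 2 ≤ T ^ 2 / 4)
    (hc : c * w ≤ (mu G).real {y : V | rho y < rc ∧ |y 2 - x 2| < w}) : c * T ^ 2 ≤ 8 * rc ^ 2 := by
  have hE' := hE U u G hS x T hT hb hth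
  have hsub : S rc (x 2) w ⊆ ball x (T / 2) := by
    rintro y ⟨hy1, hy2⟩
    rw [mem_ball, dist_eq_norm]
    have h1 := norm_sq_eq (y - x)
    have h2 := rho_sub x y
    have h3 := rho_nn (y - x)
    have h4 : (y - x) 2 = y 2 - x 2 := rfl
    have h5 : (y 2 - x 2) ^ 2 < w ^ 2 := sq_lt_sq' (by rw [abs_lt] at hy2; linarith)
      (by rw [abs_lt] at hy2; linarith)
    have h6 : rho (y - x) ^ 2 ≤ (rc + rho x) ^ 2 := by
      apply pow_le_pow_left₀ h3
      linarith
    rw [h4] at h1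
    apply lt_of_pow_lt_pow_left₀ 2 (by positivity)
    rw [h1]
    linarith
  have hsub2 : S rc (x 2) w ⊆ ball 0 2 :=
    hsub.trans ((ball_subset_ball (by linarith)).trans hb)
  obtain ⟨-, -, -, h4, -, -⟩ := hM m G hS.gd.memG
  obtain ⟨h5, h6⟩ := h4 _ (S_meas rc (x 2) w) hsub2
  have hSU : S rc (x 2) w ⊆ U := fun y hy => (hE' y (hsub hy)).1
  have h7 : ∫ y in S rc (x 2) w, nsq (G y) ≤ ∫ y in S rc (x 2) w, (T ^ 2)⁻¹ := by
    refine setIntegral_mono_ae_restrict h5 ?_ ?_
    · refine integrableOn_const ?_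
      exact ((S_vol hrc).trans_lt ENNReal.ofReal_lt_top).ne
    · filter_upwards [ae_mono (Measure.restrict_mono hSU le_rfl) hS.ae,
        ae_restrict_mem (S_meas rc (x 2) w)] with y hy hy2
      rw [hy]
      have h8 : T ^ 2 * nsq (fderiv ℝ u y) ≤ 1 := (hE' y (hsub hy2)).2
      rw [← one_div, le_div_iff₀ (by positivity)]
      linarith
  rw [setIntegral_const, smul_eq_mul] at h7
  have h8 : volume.real (S rc (x 2) w) ≤ 8 * rc ^ 2 * w :=
    ENNReal.toReal_le_of_le_ofReal (by positivity) (S_vol hrc)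
  have h9 : c * w ≤ 8 * rc ^ 2 * w * (T ^ 2)⁻¹ := by
    refine hc.trans ?_
    have h10 : (mu G).real {y : V | rho y < rc ∧ |y 2 - x 2| < w} =
      ∫ y in S rc (x 2) w, nsq (G y) := h6
    rw [h10]
    exact h7.trans (mul_le_mul_of_nonneg_right h8 (by positivity))
  rw [← div_eq_mul_inv, le_div_iff₀ (by positivity)] at h9
  have h10 : c * T ^ 2 * w ≤ 8 * rc ^ 2 * w := by linarith
  exact le_of_mul_le_mul_right h10 hw

theorem abs_two_le (x : V) : |x 2| ≤ ‖x‖ := by
  apply abs_le_of_sq_le_sq _ (norm_nonneg x)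
  rw [norm_sq_eq]
  nlinarith [sq_nonneg (rho x)]

end QNT

theorem pf_QNT (hM : T_MUF) : T_QNT := by
  intro m L Λ ε e hE he U u G hS h rc c hh hh64 hrc hrh hc hcc hT
  refine ⟨?_, ?_⟩
  · intro x t ht ht8 hx hx2
    by_contra hlt
    push Not at hlt
    have h1 := QNT.norm_sq_eq x
    have h2 := QNT.rho_nn x
    have h3 : x 2 ^ 2 ≤ 1 / 4 := by
      rw [← sq_abs]
      nlinarith [abs_nonneg (x 2)]
    have h4 : ‖x‖ < 1 := by
      nlinarith [norm_nonneg x]
    have h5 : ball x t ⊆ ball 0 2 := by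
      apply ball_subset_ball'
      rw [dist_zero_right]
      linarith
    have h6 := hT (x 2) (t / 8) (by linarith) (by linarith)
    have h7 := QNT.core hM hE hS (rc := rc) (c := c) (w := t / 8) (T := t) (x := x) hrc
      (by linarith) (by linarith) h5 (by linarith) ?_ h6
    · have h10 : c * (4 * h ^ 2) ≤ c * t ^ 2 := by
        apply mul_le_mul_of_nonneg_left _ hc.le
        nlinarith
      nlinarith [sq_nonneg rc]
    · have h8 : rc + rho x ≤ 5 / 16 * t := by linarith
      have h9 : (rc + rho x) ^ 2 ≤ (5 / 16 * t) ^ 2 := pow_le_pow_left₀ (by linarith) h8 2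
      nlinarith [sq_nonneg t]
  · intro x₀ σ hσ hσ64 hx₀ hth
    by_contra hlt
    push Not at hlt
    have h2 := QNT.rho_nn x₀
    have h5 : ball x₀ (σ / 8) ⊆ ball 0 2 := by
      apply ball_subset_ball'
      rw [dist_zero_right]
      linarith
    have h3 := QNT.abs_two_le x₀
    have h6 := hT (x₀ 2) (σ / 64) (by linarith) (by linarith)
    have h7 := QNT.core hM hE hS (rc := rc) (c := c) (w := σ / 64) (T := σ / 8) (x := x₀) hrc
      (by linarith) (by linarith) h5 hth ?_ h6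
    · have h10 : c * (16 * h ^ 2) ≤ c * σ ^ 2 := by
        apply mul_le_mul_of_nonneg_left _ hc.le
        nlinarith
      nlinarith [sq_nonneg rc]
    · have h8 : rc + rho x₀ ≤ 3 / 64 * σ := by linarith
      have h9 : (rc + rho x₀) ^ 2 ≤ (3 / 64 * σ) ^ 2 := pow_le_pow_left₀ (by linarith) h8 2
      nlinarith [sq_nonneg σ]

end

end Pool.Agent.H21.D3
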